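import Pool.Agent.H37.Ct1

set_option autoImplicit false

open Pool.Agent.H37 Ct Ki MeasureTheory

theorem Pool.Agent.Results.MP_616e01_lc.Yes.result (U V : List Bool →. List Bool) (hU : OptC U)
    (hV : Opt V) (nm : ℕ → List Bool) (h1 : Computable nm) (h2 : Function.Injective nm)
    (μ : Measure (ℕ → Bool)) [IsProbabilityMeasure μ] (h : Triv U nm μ) : Triv V nm μ :=
  Ct.main hU hV (CI.of_comp h1) h2 μ h
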